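import Mathlib
import Pool.Agent.Lib.MP_9d6bd1_lc.Machine
import Pool.Agent.Lib.MP_9d6bd1_lc.Rot
import Pool.Agent.Lib.MP_9d6bd1_lc.RMain
import Pool.Agent.Lib.MP_9d6bd1_lc.Final

/-!
# MP_9d6bd1_lc, Q2: a planarity test in time `O(n log n)` and space `o(n log n)` bits

There are a program `P` of the word RAM, constants `c, C` and a function `s : ℕ → ℕ` such that for
every graph `G` with `n` vertices, given by adjacency arrays in read-only memory, and every word
length `w ≥ c (⌊log₂ n⌋ + 1)`, the program decides in at most `C (n + 1) (⌊log₂ n⌋ + 1)` steps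
whether `G` is planar, using at most `s n` words of working memory; and for every `c'` and
`ε > 0` and all large `n` the working memory including the registers has at most `ε n log₂ n`
bits if the word length is at most `c' (⌊log₂ n⌋ + 1)`.

`RotPlanar G`: `G` has a rotation system of genus 0 (a planar embedding).
-/

set_option autoImplicit false

namespace Pool.Agent.Results.MP_9d6bd1_lc.PlanarityTest

open Pool.Agent.MP9d6bd1

theorem result : ∃ (P : List Instr) (c C : ℕ) (s : ℕ → ℕ),
    (∀ (n : ℕ) (G : SimpleGraph (Fin n)) (inp : ℕ → ℕ), AdjArrays G inp →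
      ∀ w : ℕ, c * (Nat.log 2 n + 1) ≤ w →
        ∃ T ≤ C * (n + 1) * (Nat.log 2 n + 1), Decides P w inp (s n) T (RotPlanar G)) ∧
    ∀ (c' : ℕ) (ε : ℝ), 0 < ε → ∃ n₀ : ℕ, ∀ n ≥ n₀, ∀ w ≤ c' * (Nat.log 2 n + 1),
      (((s n + numRegs P) * w : ℕ) : ℝ) ≤ ε * (n * Real.logb 2 n) := by
  obtain ⟨P, c, C, s, h1, h2⟩ := final
  refine ⟨P, c, C, s, fun n G inp hG w hw => ?_, h2⟩
  obtain ⟨T, hT, s', hr, hp, ho⟩ := h1 n G inp hG w hw
  exact ⟨T, hT, s', hr, hp, ho.trans (planar_iff_rot G)⟩

end Pool.Agent.Results.MP_9d6bd1_lc.PlanarityTest
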